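import Pool.Agent.H66.IQ.TD

/-!
Row KST of the board iq (MP_0f8dca_lc): the strings which extend a partial assignment.
-/

set_option autoImplicit false

namespace Pool.Agent.H91.IQ

open Finset Pool.Agent.H6.NB Pool.Agent.H70.EH Pool.Agent.H78.XQ Pool.Agent.H66.IQ
open Pool.Agent.H68.AC (PA Wt fd Ext ind)

section

variable {V : Type} (κ : V → Option Bool)

/-- the string `z` on the free variables, the values of `κ` on the others -/
def kstF (z : {v // κ v = none} → Bool) : V → Bool := fun v =>
  if h : κ v = none then z ⟨v, h⟩ else (κ v).getD false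

/-- the restriction to the free variables -/
def kstR (y : V → Bool) : {v // κ v = none} → Bool := fun v => y v.1

theorem kst_RF (z : {v // κ v = none} → Bool) : kstR κ (kstF κ z) = z := by
  funext v
  unfold kstR kstF
  rw [dif_pos v.2]

theorem kst_inj : Function.Injective (kstF κ) := by
  intro z z' h
  rw [← kst_RF κ z, ← kst_RF κ z', h]

theorem kst_ext (z : {v // κ v = none} → Bool) : Ext κ (kstF κ z) := by
  intro v b hv
  unfold kstF
  rw [dif_neg (by rw [hv]; exact Option.some_ne_none b), hv]
  rfl

theorem kst_FR {y : V → Bool} (hy : Ext κ y) : kstF κ (kstR κ y) = y := by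
  funext v
  unfold kstF kstR
  by_cases h : κ v = none
  · rw [dif_pos h]
  · rw [dif_neg h]
    obtain ⟨b, hb⟩ := Option.ne_none_iff_exists'.1 h
    rw [hb, hy v b hb]
    rfl

theorem kst_getD (y : V → Bool) : (fun v => (κ v).getD (y v)) = kstF κ (kstR κ y) := by
  funext v
  unfold kstF kstR
  by_cases h : κ v = none
  · rw [dif_pos h, h]
    rfl
  · rw [dif_neg h]
    obtain ⟨b, hb⟩ := Option.ne_none_iff_exists'.1 h
    rw [hb]
    rfl

variable [Fintype V] [DecidableEq V]

theorem kst_nt (z : {v // κ v = none} → Bool) :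
    nt (kstF κ z) = nt z + nv κ (some true) := by
  unfold nt nv
  have h1 : (univ.filter fun v => kstF κ z v = true) =
      ((univ.filter fun v : {v // κ v = none} => z v = true).map
        (Function.Embedding.subtype _)) ∪ (univ.filter fun v => κ v = some true) := by
    ext v
    simp only [mem_filter, mem_univ, true_and, mem_union, mem_map,
      Function.Embedding.coe_subtype, Subtype.exists, exists_and_right, exists_eq_right]
    unfold kstF
    by_cases h : κ v = none
    · rw [dif_pos h]
      constructor
      · intro h2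
        exact Or.inl ⟨h, h2⟩
      · rintro (⟨_, h2⟩ | h2)
        · exact h2
        · rw [h] at h2
          exact absurd h2.symm (Option.some_ne_none _)
    · rw [dif_neg h]
      obtain ⟨b, hb⟩ := Option.ne_none_iff_exists'.1 h
      have e1 : (κ v).getD false = b := by rw [hb]; rfl
      rw [e1]
      constructor
      · intro h2
        exact Or.inr (by rw [hb, h2])
      · rintro (⟨h2, _⟩ | h2)
        · exact absurd h2 h
        · rw [hb] at h2
          exact Option.some.inj h2
  rw [h1, card_union_of_disjoint, card_map]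
  rw [disjoint_left]
  intro v h2 h3
  rw [mem_map] at h2
  obtain ⟨w, _, rfl⟩ := h2
  rw [mem_filter] at h3
  have h4 := w.2
  have h5 : κ (w : V) = some true := h3.2
  rw [h4] at h5
  exact absurd h5.symm (Option.some_ne_none _)

theorem kst_ws (W : ℕ) (hW : nv κ (some true) ≤ W) :
    ws κ W = (ws (fun _ : {v // κ v = none} => none) (W - nv κ (some true))).map
      ⟨kstF κ, kst_inj κ⟩ := by
  ext y
  unfold ws
  simp only [mem_filter, mem_univ, true_and, mem_map, Function.Embedding.coeFn_mk]
  constructor
  · rintro ⟨h1, h2⟩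
    refine ⟨kstR κ y, ⟨?_, ?_⟩, kst_FR κ h1⟩
    · intro v b hv
      exact absurd hv.symm (Option.some_ne_none _)
    · have h3 := kst_nt κ (kstR κ y)
      rw [kst_FR κ h1, h2] at h3
      omega
  · rintro ⟨z, ⟨_, h2⟩, rfl⟩
    refine ⟨kst_ext κ z, ?_⟩
    rw [kst_nt, h2]
    omega

theorem kst_wm (W : ℕ) (hW : nv κ (some true) ≤ W) (F : (V → Bool) → ℝ)
    (G : ({v // κ v = none} → Bool) → ℝ) (h : ∀ z, G z = F (kstF κ z)) :
    wm κ W F = wm (fun _ => none) (W - nv κ (some true)) G := by
  unfold wm
  rw [kst_ws κ W hW, sum_map, card_map]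
  simp only [Function.Embedding.coeFn_mk]
  rw [sum_congr rfl (fun z _ => (h z).symm)]

theorem kst_mn (F : (V → Bool) → ℝ)
    (G : ({v // κ v = none} → Bool) → ℝ) (h : ∀ z, G z = F (kstF κ z)) :
    mn (rst κ F) = mn G := by
  unfold mn rst
  have h1 : ∑ y : V → Bool, F (fun v => (κ v).getD (y v)) =
      (2 : ℝ) ^ Fintype.card {v // ¬ κ v = none} * ∑ z, G z := by
    have h2 : ∀ y : V → Bool, F (fun v => (κ v).getD (y v)) =
        (fun p : ({v // κ v = none} → Bool) × ({v // ¬ κ v = none} → Bool) => G p.1)
          ((Equiv.piEquivPiSubtypeProd (fun v => κ v = none) (fun _ => Bool)) y) := by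
      intro y
      rw [kst_getD κ y]
      exact (h _).symm
    rw [sum_congr rfl (fun y _ => h2 y), Equiv.sum_comp
      (Equiv.piEquivPiSubtypeProd (fun v => κ v = none) (fun _ => Bool))
      (fun p : ({v // κ v = none} → Bool) × ({v // ¬ κ v = none} → Bool) => G p.1),
      Fintype.sum_prod_type]
    simp only [sum_const, card_univ, nsmul_eq_mul]
    rw [← mul_sum]
    congr 1
    rw [Fintype.card_fun, Fintype.card_bool]
    push_cast
    rfl
  have h3 : Fintype.card V = Fintype.card {v // κ v = none} +
      Fintype.card {v // ¬ κ v = none} := by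
    rw [Fintype.card_subtype_compl]
    have := Fintype.card_subtype_le (fun v => κ v = none)
    omega
  rw [h1, h3, pow_add]
  have h4 : (2 : ℝ) ^ Fintype.card {v // ¬ κ v = none} ≠ 0 := by positivity
  have h5 : (2 : ℝ) ^ Fintype.card {v // κ v = none} ≠ 0 := by positivity
  field_simp

end

theorem pf_KST (hSBT : T_SBT) : T_KST := by
  intro V _ _ κ W t hW
  obtain ⟨t', h1, h2, h3, h4⟩ := hSBT V {v // κ v = none} t
    (fun v => if h : κ v = none then Sum.inr ⟨v, h⟩ else Sum.inl ((κ v).getD false))
  have h5 : ∀ z, t'.ev z = t.ev (kstF κ z) := by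
    intro z
    rw [h4]
    congr 1
    funext v
    unfold kstF
    by_cases h : κ v = none
    · rw [dif_pos h, dif_pos h]
      rfl
    · rw [dif_neg h, dif_neg h]
      rfl
  exact ⟨t', h1.le, h2.le, h3, kst_wm κ W hW _ _ h5, kst_mn κ _ _ h5⟩

end Pool.Agent.H91.IQ
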